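import Mathlib
import Pool.Agent.H772R2.NSV.PubV
import Pool.Agent.H772R2.NSV.FinalV

open MeasureTheory Set Filter Topology H772R2.NS.Pub
open scoped InnerProductSpace ENNReal

/-- **Generic global regularity of the three dimensional Navier-Stokes equations.** Let `Ω ⊆ ℝ³` be
bounded and open, `ν > 0`, `u₀ ∈ V`, let the force be given by `⟨f(t), φ⟩ = (F(t), ∇φ)` with
`F ∈ H¹(0,T; L²)` for every `T` (so `f ∈ H¹(0,T; V')`), and suppose that the initial acceleration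
is in `L²` (which holds if `u₀ ∈ V ∩ H²` and `f(0) ∈ H`). Consider the Navier-Stokes equations
with these data and with time dependent viscosity `n(t) ≥ ν`.
(i) For `T > 0` and `1 ≤ p ≤ 5` the set of viscosities `n ∈ L^p(0,T)`, `n ≥ ν`, for which there is
a regular solution on `[0,T]` is open and dense, and the solution depends continuously on `n` with
values in `C([0,T]; V)`.
(ii) For `1 ≤ p ≤ 5` the set of `h ∈ L^p(0,∞)`, `h ≥ 0`, such that for the viscosity `ν + h` there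
is a regular solution on `[0,∞)` is residual and dense.
(iii) The regular solution is the only Leray-Hopf weak solution.
(iv) The constant viscosity `ν` is in the open dense set of (i) if and only if the solution of the
problem exists on `[0,T]`, that is `∂_t u ∈ L²(0,T; V) ∩ L^∞(0,T; L²)`. -/
theorem Pool.Agent.Results.MP_fd8964_an.GenericRegularity.result :
    ∀ {Ω : Set R3}, IsOpen Ω → Bornology.IsBounded Ω → ∀ {ν : ℝ}, 0 < ν →
      ∀ {u0 : L2 Ω R3} {z0 : L2 Ω Mat}, (u0, z0) ∈ H1graph Ω →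
      ∀ {F F' : ℝ → L2 Ω Mat}, (∀ T, 0 < T → IsH1 T F F') →
      (∃ h : L2 Ω R3, ∀ φ, IsTest Ω φ → rhs ν u0 z0 (F 0) φ = ∫ x in Ω, ⟪h.fn x, φ x⟫_ℝ) →
      (∀ {T : ℝ}, 0 < T → ∀ {p : ℝ≥0∞} [Fact (1 ≤ p)], p ≤ 5 →
        IsOpen {n : Visc ν T p | ∃ u G, IsRegular Ω T n.fn F u0 u G} ∧
        Dense {n : Visc ν T p | ∃ u G, IsRegular Ω T n.fn F u0 u G} ∧
        ∀ (n : Visc ν T p) u G, IsRegular Ω T n.fn F u0 u G → ∀ ε > 0, ∃ δ > 0,
          ∀ n' : Visc ν T p, dist n' n < δ → ∃ u' G', IsRegular Ω T n'.fn F u0 u' G' ∧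
            ∀ t ∈ Icc 0 T, ‖G' t - G t‖ ≤ ε) ∧
      (∀ {p : ℝ≥0∞} [Fact (1 ≤ p)], p ≤ 5 →
        {h : Incr p | ∃ u G, ∀ T, 0 < T → IsRegular Ω T (fun t => ν + h.fn t) F u0 u G}
          ∈ residual (Incr p) ∧
        Dense {h : Incr p | ∃ u G, ∀ T, 0 < T →
          IsRegular Ω T (fun t => ν + h.fn t) F u0 u G}) ∧
      (∀ {T : ℝ}, 0 < T → ∀ {n : ℝ → ℝ}, MemLp n 2 (volume.restrict (Ioc 0 T)) →
        (∀ᵐ t ∂(volume.restrict (Ioc 0 T)), ν ≤ n t) → ∀ {u v : ℝ → L2 Ω R3}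
        {G H : ℝ → L2 Ω Mat}, IsRegular Ω T n F u0 u G → IsLH Ω T n F u0 v H →
          ∀ t ∈ Icc 0 T, v t = u t) ∧
      ∀ {T : ℝ}, 0 < T → ((∃ u G, IsRegular Ω T (fun _ => ν) F u0 u G) ↔
        ∃ u u' G G', u 0 = u0 ∧ IsStrong Ω ν T F u u' G G') := by
  intro Ω hΩ hb ν hν u0 z0 h0 F F' hF hc
  exact H772R2.NSV.generic_reg_pub hΩ hb hν h0 hF hc
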