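import Mathlib
import Pool.Agent.H772R2.NSG.PubG
import Pool.Agent.H772R2.NSG.MainG

open MeasureTheory Set Filter Topology H772R2.NS.Pub
open scoped InnerProductSpace ENNReal

/-- **Generic well-posedness of the three dimensional Navier-Stokes equations.** Let `Ω ⊆ ℝ³` be
bounded and open, `ν, T > 0` and `2 ≤ p ≤ 5`. Consider the Navier-Stokes equations in `Ω × (0,T)`
with zero boundary values, time dependent viscosity `n(t)`, where `n ∈ L^p(0,T)`, `n ≥ ν`, initial
velocity `u₀ ∈ L²_σ(Ω)` and force `⟨f(t), φ⟩ = (F(t), ∇φ)`, `F ∈ L²(0,T; L²)`, that is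
`f ∈ L²(0,T; V')`.
(i) The problem is well posed in the class of Leray-Hopf weak solutions (existence, uniqueness,
continuity in `L²`, energy equality, continuous dependence on viscosity and data) for a residual
set of `(n, u₀, F)`, which is dense.
(ii) For every `u₀ ∈ V` and `F ∈ H¹(0,T; L²)` with initial acceleration in `L²`, that is, for all
the data of the problem, it is well posed for a residual set of viscosities `n`, which is dense. -/
theorem Pool.Agent.Results.MP_fd8964_an.GenericViscosity.result :
    ∀ {Ω : Set R3}, IsOpen Ω → Bornology.IsBounded Ω → ∀ {ν T : ℝ}, 0 < ν → 0 < T →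
      ∀ {p : ℝ≥0∞} [Fact (1 ≤ p)], 2 ≤ p → p ≤ 5 →
      {q : Visc ν T p × Data Ω T | WellPosed q.1 q.2} ∈ residual (Visc ν T p × Data Ω T) ∧
      Dense {q : Visc ν T p × Data Ω T | WellPosed q.1 q.2} ∧
      ∀ d : Data Ω T, IsAdmissible ν d →
        {n : Visc ν T p | WellPosed n d} ∈ residual (Visc ν T p) ∧
        Dense {n : Visc ν T p | WellPosed n d} := by
  intro Ω hΩ hb ν T hν hT p _ hp2 hp5
  exact H772R2.NSG.generic_pub hΩ hb hν hT hp2 hp5
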