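import Mathlib
import Pool.Agent.H772R2.NSZ.PubZ
import Pool.Agent.H772R2.NSZ.FinalZ

open MeasureTheory Set Filter Topology H772R2.NS.Pub
open scoped InnerProductSpace ENNReal

/-- **Regularization of the three dimensional Navier-Stokes equations in families.** Let `Ω ⊆ ℝ³` be
bounded and open, `ν > 0`, `1 ≤ p ≤ 5`, and let `θ ↦ (u0 θ, F θ)` be a continuous family of admissible
data over a topological space `Θ` (for instance the space of all admissible data itself): initial
velocities in `V`, forces `⟨f(t), φ⟩ = (F(t), ∇φ)` with `F ∈ H¹(0,T; L²)` for all `T`, initial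
acceleration in `L²`.
(i) For every continuous `θ ↦ φ θ ∈ L^p(0,T)`, `φ θ ≥ ν`, the set of the `θ` such that the
Navier-Stokes equations with the data `θ` and the viscosity `φ θ` have a regular solution on `[0,T]`
is open.
(ii) Let `Θ` be normal and paracompact (for instance metrizable), `A ⊆ Θ` closed, `ε : Θ → (0,∞)`
continuous, and suppose that there is a regular solution for every `θ ∈ A`. Then there is a
continuous family of viscosities `ψ θ ≥ ν`, equal to `φ θ` on `A`, at `L^p` distance at most `ε θ`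
from `φ θ`, such that for every `θ ∈ Θ` there is a regular solution on `[0,T]` with the viscosity
`ψ θ` and the data `θ`, whose gradient depends continuously on `θ` in `C([0,T]; L²)`.
(iii) The same on `[0,∞)`, with viscosities `ν + φ θ`, `ν + ψ θ`, `φ θ, ψ θ ≥ 0` in `L^p(0,∞)`.
(iv) For each of the data the set of the viscosities `n ≥ ν` in `L^p(0,T)` with a regular solution
on `[0,T]`, and the set of the `h ≥ 0` in `L^p(0,∞)` such that there is a regular solution on
`[0,∞)` for the viscosity `ν + h`, are contractible.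
With `Θ` the space of all admissible data and `φ θ = ν` constant: all the Cauchy problems can be made
globally regular at once, by a change of the viscosity which is small in `L^p(0,∞)`, depends
continuously on the data, and vanishes on any prescribed closed set of data for which the solution
is globally regular. With `Θ` compact metrizable and fixed data one obtains that the
exceptional viscosities form a set of infinite codimension: every continuous map of a compact
metrizable space into the space of viscosities can be moved off it by an arbitrarily small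
homotopy. -/
theorem Pool.Agent.Results.MP_fd8964_an.RegularFamilies.result :
    ∀ {Ω : Set R3}, IsOpen Ω → Bornology.IsBounded Ω → ∀ {ν : ℝ}, 0 < ν →
      ∀ {Θ : Type} [TopologicalSpace Θ] {u0 : Θ → L2 Ω R3} {z0 : Θ → L2 Ω Mat}
        {F F' : Θ → ℝ → L2 Ω Mat}, IsFamily ν u0 z0 F F' →
      ∀ {p : ℝ≥0∞} [Fact (1 ≤ p)], p ≤ 5 →
      (∀ {T : ℝ}, 0 < T → ∀ {φ : Θ → Visc ν T p}, Continuous φ →
        IsOpen {θ | ∃ u G, IsRegular Ω T (φ θ).fn (F θ) (u0 θ) u G}) ∧
      (∀ [NormalSpace Θ] [ParacompactSpace Θ] {A : Set Θ}, IsClosed A → ∀ {ε : Θ → ℝ},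
        Continuous ε → (∀ θ, 0 < ε θ) →
        (∀ {T : ℝ}, 0 < T → ∀ {φ : Θ → Visc ν T p}, Continuous φ →
          (∀ θ ∈ A, ∃ u G, IsRegular Ω T (φ θ).fn (F θ) (u0 θ) u G) →
          ∃ (ψ : Θ → Visc ν T p) (u : Θ → ℝ → L2 Ω R3) (G : Θ → ℝ → L2 Ω Mat), Continuous ψ ∧
            (∀ θ ∈ A, ψ θ = φ θ) ∧ (∀ θ, dist (ψ θ) (φ θ) ≤ ε θ) ∧
            (∀ θ, IsRegular Ω T (ψ θ).fn (F θ) (u0 θ) (u θ) (G θ)) ∧
            ∀ θ0, ∀ δ > 0, ∀ᶠ θ in 𝓝 θ0, ∀ t ∈ Icc 0 T, ‖G θ t - G θ0 t‖ ≤ δ) ∧
        (∀ {φ : Θ → Incr p}, Continuous φ →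
          (∀ θ ∈ A, ∃ u G, ∀ T, 0 < T →
            IsRegular Ω T (fun t => ν + (φ θ).fn t) (F θ) (u0 θ) u G) →
          ∃ (ψ : Θ → Incr p) (u : Θ → ℝ → L2 Ω R3) (G : Θ → ℝ → L2 Ω Mat), Continuous ψ ∧
            (∀ θ ∈ A, ψ θ = φ θ) ∧ (∀ θ, dist (ψ θ) (φ θ) ≤ ε θ) ∧
            (∀ θ T, 0 < T → IsRegular Ω T (fun t => ν + (ψ θ).fn t) (F θ) (u0 θ) (u θ) (G θ)) ∧
            ∀ T, 0 < T → ∀ θ0, ∀ δ > 0, ∀ᶠ θ in 𝓝 θ0, ∀ t ∈ Icc 0 T,
              ‖G θ t - G θ0 t‖ ≤ δ)) ∧
      ∀ θ, (∀ {T : ℝ}, 0 < T → ContractibleSpace {n : Visc ν T p | ∃ u G,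
          IsRegular Ω T n.fn (F θ) (u0 θ) u G}) ∧
        ContractibleSpace {h : Incr p | ∃ u G, ∀ T, 0 < T →
          IsRegular Ω T (fun t => ν + h.fn t) (F θ) (u0 θ) u G} := by
  intro Ω hΩ hb ν hν Θ _ u0 z0 F F' hfam p _ hp5
  exact H772R2.NSZ.families_pub hΩ hb hν hfam hp5
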