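import Mathlib
import Pool.Agent.H772R2.NS.Pub
import Pool.Agent.H772R2.NSR.PubR
import Pool.Agent.H772R2.NSG.FinalH

open MeasureTheory Set Filter Topology H772R2.NS.Pub
open scoped InnerProductSpace ENNReal

/-- **Global strong solutions after an arbitrarily small change of the force.** Let `Ω ⊆ ℝ³` be
bounded and open, `ν > 0`, `u₀ ∈ V` with gradient `z₀`, and let the force be given by
`⟨f(t), φ⟩ = (F(t), ∇φ)` with `F ∈ H¹(0,T; L²)` for every `T` (so `f ∈ H¹(0,T; V')`), and suppose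
that the initial acceleration is in `L²` (which holds if `u₀ ∈ V ∩ H²` and `f(0) ∈ H`). Then for
every `ε > 0` there is `u` on `[0,∞)` which for every `T > 0` is a strong solution on `[0,T]`, with
`∂_t u ∈ L²(0,T; V) ∩ L^∞(0,T; L²)`, of the Navier-Stokes equations with viscosity `ν` and force
`f + g`, where `⟨g(t), φ⟩ = -λ(t) (∇u(t), ∇φ)` (that is, viscosity `ν + λ(t)` and force `f`),
`λ ≥ 0` is continuous, `λ(0) = 0`, `λ` vanishes outside a set of times of measure at most `ε`,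
`∫₀^∞ λ⁵ log(e + λ) ≤ ε`, `g ∈ H¹(0,T; V')` for every `T` and
`∫₀^∞ ‖g‖_{V'}^{5/3} log(e + ‖g‖_{V'})^{1/6} ≤ ε`. -/
theorem Pool.Agent.Results.MP_fd8964_an.SmallForceGlobal.result :
    ∀ {Ω : Set R3}, IsOpen Ω → Bornology.IsBounded Ω → ∀ {ν : ℝ}, 0 < ν →
      ∀ {u0 : L2 Ω R3} {z0 : L2 Ω Mat}, (u0, z0) ∈ H1graph Ω →
      ∀ {F F' : ℝ → L2 Ω Mat}, (∀ T, 0 < T → IsH1 T F F') →
      (∃ h : L2 Ω R3, ∀ φ, IsTest Ω φ → rhs ν u0 z0 (F 0) φ = ∫ x in Ω, ⟪h.fn x, φ x⟫_ℝ) →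
      ∀ {ε : ℝ}, 0 < ε →
      ∃ (u u' : ℝ → L2 Ω R3) (G G' : ℝ → L2 Ω Mat) (lam : ℝ → ℝ) (g' : ℝ → L2 Ω Mat),
        u 0 = u0 ∧ (∀ t, 0 ≤ lam t) ∧ lam 0 = 0 ∧
        volume {t | 0 ≤ t ∧ lam t ≠ 0} ≤ ENNReal.ofReal ε ∧
        ∀ T, 0 < T → IsStrong Ω ν T (fun t => F t - lam t • G t) u u' G G' ∧
          ContinuousOn lam (Icc 0 T) ∧ IsH1 T (fun t => -(lam t • G t)) g' ∧
          ∫ t in (0 : ℝ)..T, lam t ^ 5 * Real.log (Real.exp 1 + lam t) ≤ ε ∧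
          ∫ t in (0 : ℝ)..T, ‖lam t • G t‖ ^ (5 / 3 : ℝ)
            * Real.log (Real.exp 1 + ‖lam t • G t‖) ^ (1 / 6 : ℝ) ≤ ε ∧
          ‖u T‖ ^ 2 / 2 + ∫ s in (0 : ℝ)..T, (ν + lam s) * ‖G s‖ ^ 2
            = ‖u 0‖ ^ 2 / 2 + ∫ s in (0 : ℝ)..T, ⟪F s, G s⟫_ℝ := by
  intro Ω hΩ hb ν hν u0 z0 h0 F F' hF hc ε hε
  exact H772R2.NSG.glob_pub hΩ hb hν h0 hF hc hε
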